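import Pool.Agent.Helper99.FS.Defs
import Pool.Agent.Helper88.RT.Col

set_option autoImplicit false

/-!
MP_120218_co, project FS, module P1: the atom lemma.  If `X`, `Y` are independent variables in an
abelian group, `X` has an atom `x₀` and `H(X + Y)` is close to the mean of `H(X)` and `H(Y)`, then
`X - x₀` has bounded order with large probability.
-/

open Finset

namespace Pool.Agent.Helper57.FS

open Pool.Agent.Helper15.BP Pool.Agent.Helper84.TR Pool.Agent.Helper88.RT Pool.Agent.Helper99.FS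

theorem concave_bin : ConcaveOn ℝ (Set.Icc 0 1) (fun t : ℝ => Real.binEntropy t + 2 * t ^ 2) := by
  have hd1 : ∀ t ∈ Set.Ioo (0 : ℝ) 1, HasDerivAt (fun t : ℝ => Real.binEntropy t + 2 * t ^ 2)
      (Real.log (1 - t) - Real.log t + 4 * t) t := by
    intro t ht
    have h1 := Real.hasDerivAt_binEntropy (ne_of_gt ht.1) (ne_of_lt ht.2)
    have h2 : HasDerivAt (fun t : ℝ => 2 * t ^ 2) (4 * t) t := by
      have h3 := (hasDerivAt_pow 2 t).const_mul 2
      refine h3.congr_deriv ?_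
      norm_num
      ring
    exact h1.add h2
  have hd2 : ∀ t ∈ Set.Ioo (0 : ℝ) 1, HasDerivAt (fun t : ℝ => Real.log (1 - t) - Real.log t + 4 * t)
      (-(1 - t)⁻¹ - t⁻¹ + 4) t := by
    intro t ht
    have h1 : HasDerivAt (fun t : ℝ => Real.log (1 - t)) (-(1 - t)⁻¹) t := by
      have h4 : HasDerivAt (fun t : ℝ => 1 - t) (-1) t := by
        simpa using (hasDerivAt_id t).const_sub 1
      have h5 := h4.log (by linarith [ht.2] : (1 - t) ≠ 0)
      refine h5.congr_deriv ?_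
      rw [div_eq_mul_inv]
      ring
    have h2 := Real.hasDerivAt_log (ne_of_gt ht.1)
    have h3 : HasDerivAt (fun t : ℝ => 4 * t) 4 t := by
      simpa using (hasDerivAt_id t).const_mul 4
    exact (h1.sub h2).add h3
  have hev : ∀ t ∈ Set.Ioo (0 : ℝ) 1, deriv (fun t : ℝ => Real.binEntropy t + 2 * t ^ 2) =ᶠ[nhds t]
      (fun t : ℝ => Real.log (1 - t) - Real.log t + 4 * t) := by
    intro t ht
    filter_upwards [isOpen_Ioo.mem_nhds ht] with s hs
    exact (hd1 s hs).deriv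
  apply concaveOn_of_deriv2_nonpos (convex_Icc 0 1)
  · exact (Real.binEntropy_continuous.add (by fun_prop)).continuousOn
  · rw [interior_Icc]
    exact fun t ht => (hd1 t ht).differentiableAt.differentiableWithinAt
  · rw [interior_Icc]
    exact fun t ht => (((hd2 t ht).differentiableAt).congr_of_eventuallyEq
      (hev t ht)).differentiableWithinAt
  · rw [interior_Icc]
    intro t ht
    have h1 : deriv^[2] (fun t : ℝ => Real.binEntropy t + 2 * t ^ 2) t =
        -(1 - t)⁻¹ - t⁻¹ + 4 := by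
      show deriv (deriv (fun t : ℝ => Real.binEntropy t + 2 * t ^ 2)) t = _
      rw [(hev t ht).deriv_eq, (hd2 t ht).deriv]
    rw [h1]
    have h2 : 0 < t := ht.1
    have h3 : 0 < 1 - t := by linarith [ht.2]
    have h4 : (1 - t)⁻¹ + t⁻¹ = 1 / (t * (1 - t)) := by
      field_simp
      ring
    have h5 : 4 ≤ 1 / (t * (1 - t)) := by
      rw [le_div_iff₀ (mul_pos h2 h3)]
      nlinarith [sq_nonneg (2 * t - 1)]
    linarith

/-- strong concavity of the binary entropy, for averages -/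
theorem bin_jensen {Ω : Type} [Fintype Ω] {w : Ω → ℝ} (hw : IsPr w) (v : Ω → ℝ)
    (h0 : ∀ o, 0 ≤ v o) (h1 : ∀ o, v o ≤ 1) :
    ∑ o, w o * Real.binEntropy (v o) + 2 * ∑ o, w o * (v o - ∑ o, w o * v o) ^ 2 ≤
      Real.binEntropy (∑ o, w o * v o) := by
  have h2 := concave_bin.le_map_sum (t := univ) (w := w) (p := v) (fun o _ => hw.nonneg o)
    hw.sum_one (fun o _ => ⟨h0 o, h1 o⟩)
  simp only [smul_eq_mul] at h2
  set m := ∑ o, w o * v o with hm
  have h3 : ∑ o, w o * (Real.binEntropy (v o) + 2 * v o ^ 2) =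
      ∑ o, w o * Real.binEntropy (v o) + 2 * ∑ o, w o * v o ^ 2 := by
    rw [mul_sum, ← sum_add_distrib]
    exact sum_congr rfl fun o _ => by ring
  have h4 : ∑ o, w o * (v o - m) ^ 2 = ∑ o, w o * v o ^ 2 - m ^ 2 := by
    have h5 : ∀ o, w o * (v o - m) ^ 2 = w o * v o ^ 2 - 2 * m * (w o * v o) + m ^ 2 * w o := by
      intro o
      ring
    rw [sum_congr rfl fun o _ => h5 o, sum_add_distrib, sum_sub_distrib, ← mul_sum, ← mul_sum,
      hw.sum_one, ← hm]
    ring
  rw [h3] at h2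
  rw [h4]
  linarith

section

variable {Ω Ω' G : Type} [Fintype Ω] [Fintype Ω'] [AddCommGroup G]

/-- `H(X + Y | X) = H(Y)`, in the form `H(X, X + Y) = H(X) + H(Y)` -/
theorem Ent_pair_sum {w : Ω → ℝ} {w' : Ω' → ℝ} (hw : IsPr w) (hw' : IsPr w') (X : Ω → G)
    (Y : Ω' → G) :
    Ent (prodW w w') (fun p => (X p.1, X p.1 + Y p.2)) = Ent w X + Ent w' Y := by
  rw [← Ent_prod hw hw' X Y]
  apply Ent_congr
  intro o o'
  simp only [Prod.mk.injEq]
  constructor
  · rintro ⟨h1, h2⟩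
    refine ⟨h1, ?_⟩
    rw [h1] at h2
    exact add_left_cancel h2
  · rintro ⟨h1, h2⟩
    exact ⟨h1, by rw [h1, h2]⟩

/-- `H(X + Y) ≥ H(Y)` -/
theorem Ent_sum_ge_right {w : Ω → ℝ} {w' : Ω' → ℝ} (hw : IsPr w) (hw' : IsPr w') (X : Ω → G)
    (Y : Ω' → G) : Ent w' Y ≤ Ent (prodW w w') (fun p => X p.1 + Y p.2) := by
  have h1 := CE_le_Ent (hw.prod hw') (fun p : Ω × Ω' => X p.1 + Y p.2) (fun p => X p.1)
  unfold CE at h1
  rw [Ent_fst hw'] at h1
  have h2 : Ent (prodW w w') (fun p => (X p.1 + Y p.2, X p.1)) =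
      Ent (prodW w w') (fun p => (X p.1, X p.1 + Y p.2)) := by
    apply Ent_congr
    intro o o'
    simp only [Prod.mk.injEq]
    tauto
  rw [h2, Ent_pair_sum hw hw'] at h1
  linarith

/-- `H(X + Y) ≥ H(X)` -/
theorem Ent_sum_ge_left {w : Ω → ℝ} {w' : Ω' → ℝ} (hw : IsPr w) (hw' : IsPr w') (X : Ω → G)
    (Y : Ω' → G) : Ent w X ≤ Ent (prodW w w') (fun p => X p.1 + Y p.2) := by
  have h1 := CE_le_Ent (hw.prod hw') (fun p : Ω × Ω' => X p.1 + Y p.2) (fun p => Y p.2)
  unfold CE at h1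
  rw [Ent_snd hw] at h1
  have h2 : Ent (prodW w w') (fun p => (X p.1 + Y p.2, Y p.2)) =
      Ent (prodW w w') (fun p => (X p.1, Y p.2)) := by
    apply Ent_congr
    intro o o'
    simp only [Prod.mk.injEq]
    constructor
    · rintro ⟨h1, h2⟩
      refine ⟨?_, h2⟩
      rw [h2] at h1
      exact add_right_cancel h1
    · rintro ⟨h1, h2⟩
      exact ⟨by rw [h1, h2], h2⟩
  rw [h2, Ent_prod hw hw'] at h1
  linarith

/-- step (a): an atom of `X` bounds the entropy of `Y` -/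
theorem step_a {w : Ω → ℝ} {w' : Ω' → ℝ} (hw : IsPr w) (hw' : IsPr w') (X : Ω → G)
    (Y : Ω' → G) (x₀ : G) :
    Ent w X + Ent w' Y - Ent (prodW w w') (fun p => X p.1 + Y p.2) ≤
      Real.log 2 + (1 - pr w X x₀) * Ent w' Y := by
  classical
  have h1 := split_event hw' hw Y (fun o => X o - x₀)
  have hp := hw'.prod hw
  have hm : mass w (fun o => X o - x₀ ≠ 0) = 1 - pr w X x₀ := by
    rw [mass_not hw]
    congr 1
    unfold mass pr
    refine sum_congr rfl fun o _ => ?_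
    by_cases h : X o = x₀
    · rw [if_pos (sub_eq_zero.2 h), if_pos h]
    · rw [if_neg (fun hh => h (sub_eq_zero.1 hh)), if_neg h]
  rw [hm] at h1
  have h2 : CE (prodW w' w) (fun p => (X p.2 - x₀ ≠ 0)) (fun p => Y p.1 + (X p.2 - x₀)) ≤
      Real.log 2 := by
    refine le_trans (CE_le_Ent hp _ _) ?_
    rw [Ent_event hp]
    exact Real.binEntropy_le_log_two
  have h3 : CE (prodW w' w) (fun p => Y p.1) (fun p => Y p.1 + (X p.2 - x₀)) =
      Ent w X + Ent w' Y - Ent (prodW w w') (fun p => X p.1 + Y p.2) := by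
    unfold CE
    rw [Ent_pair_sum hw' hw Y (fun o => X o - x₀)]
    have h4 : Ent w (fun o => X o - x₀) = Ent w X := by
      apply Ent_congr
      intro o o'
      exact sub_left_inj
    have h5 : Ent (prodW w' w) (fun p => Y p.1 + (X p.2 - x₀)) =
        Ent (prodW w w') (fun p => X p.1 + Y p.2) := by
      rw [← Ent_equiv (w := prodW w' w) (w' := prodW w w') (Equiv.prodComm Ω' Ω)
        (fun o => by unfold prodW; exact mul_comm _ _) (fun p => X p.1 + Y p.2)]
      apply Ent_congr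
      intro o o'
      show Y o.1 + (X o.2 - x₀) = Y o'.1 + (X o'.2 - x₀) ↔ X o.2 + Y o.1 = X o'.2 + Y o'.1
      have e1 : ∀ q : Ω' × Ω, Y q.1 + (X q.2 - x₀) = (X q.2 + Y q.1) - x₀ := fun q => by abel
      rw [e1, e1]
      exact sub_left_inj
    rw [h4, h5]
    ring
  rw [h3] at h1
  linarith

omit [AddCommGroup G] in
/-- the mode of a variable -/
theorem mode {w : Ω → ℝ} (hw : IsPr w) (X : Ω → G) : ∃ o, Real.exp (-(Ent w X)) ≤ pr w X (X o) := by
  by_contra hcon
  push Not at hcon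
  have h1 : ∃ o, 0 < w o := by
    by_contra h
    push Not at h
    have h2 := hw.sum_one
    have h3 : ∑ o, w o ≤ 0 := sum_nonpos fun o _ => h o
    linarith
  obtain ⟨o₁, ho₁⟩ := h1
  have h2 : ∑ o, w o * Ent w X < ∑ o, w o * (-Real.log (pr w X (X o))) := by
    have h3 : ∀ o, 0 < w o → w o * Ent w X < w o * (-Real.log (pr w X (X o))) := by
      intro o ho
      apply mul_lt_mul_of_pos_left _ ho
      have h4 := Real.log_lt_log (pr_pos hw X ho) (hcon o)
      rw [Real.log_exp] at h4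
      linarith
    apply sum_lt_sum
    · intro o _
      rcases (hw.nonneg o).eq_or_lt with h0 | h0
      · rw [← h0, zero_mul, zero_mul]
      · exact (h3 o h0).le
    · exact ⟨o₁, mem_univ _, h3 o₁ ho₁⟩
  rw [← sum_mul, hw.sum_one, one_mul] at h2
  exact lt_irrefl _ h2

omit [AddCommGroup G] in
/-- the values of small mass have small total mass -/
theorem small_mass {w : Ω → ℝ} (hw : IsPr w) (X : Ω → G) {L σ θ : ℝ} (hL : Ent w X ≤ L)
    (hL0 : 0 < L) (hσ : 0 < σ) (hθ : θ ≤ Real.exp (-(L / σ))) :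
    mass w (fun o => pr w X (X o) < θ) ≤ σ := by
  classical
  have h1 : mass w (fun o => pr w X (X o) < θ) * (L / σ) ≤ Ent w X := by
    unfold mass Ent
    rw [sum_mul]
    apply sum_le_sum
    intro o _
    have h5 : 0 ≤ w o * (-Real.log (pr w X (X o))) :=
      mul_nonneg (hw.nonneg o) (neg_nonneg.2 (Real.log_nonpos (pr_nonneg hw X _)
        (pr_le_one hw X _)))
    by_cases h : pr w X (X o) < θ
    · rw [if_pos h]
      rcases (hw.nonneg o).eq_or_lt with h0 | h0
      · rw [← h0, zero_mul, zero_mul]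
      · apply mul_le_mul_of_nonneg_left _ (hw.nonneg o)
        have h4 := Real.log_lt_log (pr_pos hw X h0) (h.trans_le hθ)
        rw [Real.log_exp] at h4
        linarith
    · rw [if_neg h, zero_mul]
      exact h5
  have h2 : mass w (fun o => pr w X (X o) < θ) * (L / σ) ≤ L := h1.trans hL
  have h3 : 0 < L / σ := by positivity
  have h4 : σ * (L / σ) = L := by field_simp
  exact le_of_mul_le_mul_right (h2.trans h4.ge) h3

/-- the entropy of `X + Y = z` given `X` -/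
theorem CE_cond {w : Ω → ℝ} {w' : Ω' → ℝ} (hw : IsPr w) (hw' : IsPr w') (X : Ω → G)
    (Y : Ω' → G) (z : G) :
    CE (prodW w w') (fun p => (X p.1 + Y p.2 = z)) (fun p => X p.1) =
      ∑ o, w o * Real.binEntropy (pr w' Y (z - X o)) := by
  classical
  have hp := hw.prod hw'
  rw [sum_w_comp w X (fun x => Real.binEntropy (pr w' Y (z - x))), Ent_fib hp]
  have him : (univ : Finset (Ω × Ω')).image (fun p => X p.1) = univ.image X := by
    have hne : Nonempty Ω' := by
      by_contra h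
      rw [not_nonempty_iff] at h
      have h2 := hw'.sum_one
      rw [Fintype.sum_empty] at h2
      exact zero_ne_one h2
    obtain ⟨o'⟩ := hne
    ext x
    simp only [mem_image, mem_univ, true_and]
    constructor
    · rintro ⟨p, hp⟩
      exact ⟨p.1, hp⟩
    · rintro ⟨o, ho⟩
      exact ⟨(o, o'), ho⟩
  rw [him]
  apply sum_congr rfl
  intro x _
  rw [pr_fst hw']
  by_cases hx : pr w X x = 0
  · rw [hx, zero_mul, zero_mul]
  · congr 1
    have hcw : IsPr (cw (prodW w w') (fun p => X p.1) x) := by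
      apply cw_isPr hp
      rw [pr_fst hw']
      exact hx
    rw [Ent_event hcw]
    congr 1
    unfold mass pr cw
    rw [Fintype.sum_prod_type]
    have h1 : ∀ o : Ω, (∑ y : Ω', if X o + Y y = z then
        (if X o = x then prodW w w' (o, y) / pr (prodW w w') (fun p => X p.1) x else 0) else 0) =
        (if X o = x then w o else 0) / pr w X x * ∑ y : Ω', if Y y = z - x then w' y else 0 := by
      intro o
      rw [mul_sum]
      apply sum_congr rfl
      intro y _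
      rw [pr_fst hw']
      by_cases h : X o = x
      · rw [if_pos h, if_pos h]
        by_cases h' : Y y = z - x
        · rw [if_pos h', if_pos (by rw [h, h']; abel)]
          unfold prodW
          ring
        · rw [if_neg h', if_neg (fun hh => h' (by rw [← hh, h]; abel)), mul_zero]
      · rw [if_neg h, if_neg h, ite_self, zero_div, zero_mul]
    rw [sum_congr rfl fun o _ => h1 o, ← sum_mul, ← sum_div]
    have h2 : (∑ o, if X o = x then w o else 0) = pr w X x := rfl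
    rw [h2, div_self hx, one_mul]

/-- the mass of `X + Y = z` -/
theorem mass_sum {w : Ω → ℝ} {w' : Ω' → ℝ} (X : Ω → G) (Y : Ω' → G) (z : G) :
    mass (prodW w w') (fun p => (X p.1 + Y p.2 = z)) = ∑ o, w o * pr w' Y (z - X o) := by
  classical
  unfold mass pr
  rw [Fintype.sum_prod_type]
  apply sum_congr rfl
  intro o _
  rw [mul_sum]
  apply sum_congr rfl
  intro y _
  by_cases h' : Y y = z - X o
  · rw [if_pos h', if_pos (by show X o + Y y = z; rw [h']; abel)]
    rfl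
  · rw [if_neg h', if_neg (fun hh : X o + Y y = z => h' (by rw [← hh]; abel)), mul_zero]

/-- the information of `X + Y` about `X` controls the masses of the translates -/
theorem info_lower {w : Ω → ℝ} {w' : Ω' → ℝ} (hw : IsPr w) (hw' : IsPr w') (X : Ω → G)
    (Y : Ω' → G) (z x₀ x₁ : G) (hx : x₀ ≠ x₁) {θ : ℝ} (h0 : θ ≤ pr w X x₀) (h1 : θ ≤ pr w X x₁)
    (hθ : 0 ≤ θ) :
    θ * (pr w' Y (z - x₀) - pr w' Y (z - x₁)) ^ 2 ≤
      Ent (prodW w w') (fun p => X p.1 + Y p.2) - Ent w' Y := by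
  classical
  have hp := hw.prod hw'
  have e1 := CE_anti hp (fun p : Ω × Ω' => X p.1) (g := fun p => X p.1 + Y p.2)
    (g' := fun p => (X p.1 + Y p.2 = z)) (fun o o' h => by
      show (X o.1 + Y o.2 = z) = (X o'.1 + Y o'.2 = z)
      have h' : X o.1 + Y o.2 = X o'.1 + Y o'.2 := h
      rw [h'])
  have e2 := CE_cond hw hw' X Y z
  have e3 := Ent_event hp (fun p => (X p.1 + Y p.2 = z))
  have e4 := bin_jensen hw (fun o => pr w' Y (z - X o)) (fun o => pr_nonneg hw' Y _)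
    (fun o => pr_le_one hw' Y _)
  rw [mass_sum] at e3
  unfold CE at e1 e2
  rw [Ent_pair_sum hw hw'] at e1
  rw [Ent_fst hw'] at e2
  have e5 : Ent (prodW w w') (fun p => (X p.1, (X p.1 + Y p.2 = z))) =
      Ent (prodW w w') (fun p => ((X p.1 + Y p.2 = z), X p.1)) := by
    apply Ent_congr
    intro o o'
    simp only [Prod.mk.injEq]
    tauto
  rw [e5] at e1
  set m := ∑ o, w o * pr w' Y (z - X o) with hm
  have e6 : pr w X x₀ * (pr w' Y (z - x₀) - m) ^ 2 + pr w X x₁ * (pr w' Y (z - x₁) - m) ^ 2 ≤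
      ∑ o, w o * (pr w' Y (z - X o) - m) ^ 2 := by
    unfold pr
    rw [sum_mul, sum_mul, ← sum_add_distrib]
    apply sum_le_sum
    intro o _
    by_cases ha : X o = x₀
    · have hb : X o ≠ x₁ := fun hh => hx (ha.symm.trans hh)
      rw [if_pos ha, if_neg hb, zero_mul, add_zero, ha]
    · rw [if_neg ha, zero_mul, zero_add]
      by_cases hb : X o = x₁
      · rw [if_pos hb, hb]
      · rw [if_neg hb, zero_mul]
        exact mul_nonneg (hw.nonneg o) (sq_nonneg _)
  have e7 : θ * (pr w' Y (z - x₀) - m) ^ 2 ≤ pr w X x₀ * (pr w' Y (z - x₀) - m) ^ 2 :=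
    mul_le_mul_of_nonneg_right h0 (sq_nonneg _)
  have e8 : θ * (pr w' Y (z - x₁) - m) ^ 2 ≤ pr w X x₁ * (pr w' Y (z - x₁) - m) ^ 2 :=
    mul_le_mul_of_nonneg_right h1 (sq_nonneg _)
  have e9 : θ * (pr w' Y (z - x₀) - pr w' Y (z - x₁)) ^ 2 ≤
      2 * (θ * (pr w' Y (z - x₀) - m) ^ 2 + θ * (pr w' Y (z - x₁) - m) ^ 2) := by
    nlinarith [mul_nonneg hθ (sq_nonneg ((pr w' Y (z - x₀) - m) + (pr w' Y (z - x₁) - m)))]
  linarith

/-- pigeonhole along a progression -/
theorem step_b {w' : Ω' → ℝ} (hw' : IsPr w') (Y : Ω' → G) (y₀ s : G) {b : ℝ} (hb : 0 < b)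
    (hy : b ≤ pr w' Y y₀) {M : ℕ} (hM : 2 / b ≤ M)
    (hs : ¬ ∃ j : ℕ, 1 ≤ j ∧ j ≤ M ∧ j • s = 0) :
    ∃ y : G, b / (2 * M) ≤ pr w' Y y - pr w' Y (y + s) := by
  classical
  by_contra hcon
  push Not at hcon
  have hM0 : (0 : ℝ) < M := lt_of_lt_of_le (by positivity) hM
  have h1 : ∀ j : ℕ, pr w' Y y₀ - j * (b / (2 * M)) ≤ pr w' Y (y₀ + j • s) := by
    intro j
    induction j with
    | zero => simp
    | succ n ih =>
      have h2 := hcon (y₀ + n • s)
      rw [add_assoc, ← succ_nsmul] at h2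
      push_cast
      linarith
  have h2 : ∀ j ∈ range (M + 1), b / 2 ≤ pr w' Y (y₀ + j • s) := by
    intro j hj
    have hj' : (j : ℝ) ≤ M := by exact_mod_cast Nat.lt_succ_iff.1 (mem_range.1 hj)
    have h3 := h1 j
    have h4 : (j : ℝ) * (b / (2 * M)) ≤ b / 2 := by
      have h5 : (M : ℝ) * (b / (2 * M)) = b / 2 := by field_simp
      rw [← h5]
      apply mul_le_mul_of_nonneg_right hj'
      positivity
    linarith
  have hinj : Set.InjOn (fun j : ℕ => y₀ + j • s) (range (M + 1)) := by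
    intro i hi j hj hij
    have hi' : i ≤ M := Nat.lt_succ_iff.1 (mem_range.1 (mem_coe.1 hi))
    have hj' : j ≤ M := Nat.lt_succ_iff.1 (mem_range.1 (mem_coe.1 hj))
    have hij' : i • s = j • s := add_left_cancel hij
    by_contra hne
    rcases Nat.lt_or_gt_of_ne hne with h | h
    · apply hs
      refine ⟨j - i, by omega, by omega, ?_⟩
      rw [sub_nsmul s h.le, ← hij']
      abel
    · apply hs
      refine ⟨i - j, by omega, by omega, ?_⟩
      rw [sub_nsmul s h.le, hij']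
      abel
  have h3 : ∑ j ∈ range (M + 1), pr w' Y (y₀ + j • s) ≤ 1 := by
    rw [← sum_image (s := range (M + 1)) (g := fun j : ℕ => y₀ + j • s) (f := fun y => pr w' Y y)
      (fun i hi j hj h => hinj hi hj h)]
    rw [← hw'.sum_one]
    unfold pr
    rw [sum_comm]
    apply sum_le_sum
    intro o _
    rw [sum_ite_eq]
    split_ifs
    · exact le_rfl
    · exact hw'.nonneg o
  have h4 : ∑ j ∈ range (M + 1), b / 2 ≤ ∑ j ∈ range (M + 1), pr w' Y (y₀ + j • s) :=
    sum_le_sum h2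
  rw [sum_const, card_range, nsmul_eq_mul] at h4
  push_cast at h4
  have h5 : 1 ≤ M * (b / 2) := by
    have h6 : 2 / b * (b / 2) = 1 := by field_simp
    rw [← h6]
    apply mul_le_mul_of_nonneg_right hM
    positivity
  linarith

end

/-- the numerical part: bounds for the entropies -/
theorem numeric {κ τ a hX hY hS : ℝ} (hκ : 0 < κ) (hκ1 : κ ≤ 1) (hτ : 0 < τ) (hτ1 : τ ≤ κ / 4)
    (ha : κ ≤ a) (hX0 : 0 ≤ hX) (hY0 : 0 ≤ hY) (f1 : hX ≤ hS) (f2 : hY ≤ hS)
    (f3 : hX + hY - hS ≤ Real.log 2 + (1 - a) * hY) (f4 : hS ≤ (1 + τ) / 2 * (hX + hY)) :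
    hX ≤ 5 / κ ∧ hY ≤ 5 / κ ∧ hS - hY ≤ 4 * τ * (5 / κ) := by
  have hlog : Real.log 2 < 0.6931471808 := Real.log_two_lt_d9
  have g0 : κ * hY ≤ a * hY := mul_le_mul_of_nonneg_right ha hY0
  have g1 : (1 - τ) * hY ≤ (1 + τ) * hX := by linarith
  have g2 : (1 - τ) * hX ≤ (1 + τ) * hY := by linarith
  have hτ3 : τ ≤ 1 / 4 := by linarith
  have p1 : τ * hX ≤ 1 / 4 * hX := mul_le_mul_of_nonneg_right hτ3 hX0
  have p2 : τ * hY ≤ 1 / 4 * hY := mul_le_mul_of_nonneg_right hτ3 hY0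
  have p3 : τ * hY ≤ κ / 4 * hY := mul_le_mul_of_nonneg_right hτ1 hY0
  have p4 : 0 ≤ τ * hY := mul_nonneg hτ.le hY0
  have p5 : 0 ≤ τ * hX := mul_nonneg hτ.le hX0
  have g4 : κ / 2 * hY ≤ Real.log 2 := by
    have e2 : (1 - 3 * τ) * hY ≤ (1 - τ) * hX := by
      have e3 : (1 - τ) * ((1 - τ) * hY) ≤ (1 - τ) * ((1 + τ) * hX) :=
        mul_le_mul_of_nonneg_left g1 (by linarith)
      have e7 : 0 ≤ 4 * τ ^ 2 * hY := by positivity
      have e4 : (1 + τ) * ((1 - 3 * τ) * hY) ≤ (1 + τ) * ((1 - τ) * hX) := by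
        calc (1 + τ) * ((1 - 3 * τ) * hY) = (1 - τ) * ((1 - τ) * hY) - 4 * τ ^ 2 * hY := by ring
          _ ≤ (1 - τ) * ((1 - τ) * hY) := by linarith
          _ ≤ (1 - τ) * ((1 + τ) * hX) := e3
          _ = (1 + τ) * ((1 - τ) * hX) := by ring
      exact le_of_mul_le_mul_left e4 (by linarith)
    linarith
  have g6 : hX ≤ 3 * hY := by linarith
  have g7 : κ * hX ≤ κ * (3 * hY) := mul_le_mul_of_nonneg_left g6 hκ.le
  have r1 : hX ≤ 5 / κ := by
    rw [le_div_iff₀ hκ]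
    linarith
  have r2 : hY ≤ 5 / κ := by
    rw [le_div_iff₀ hκ]
    linarith
  refine ⟨r1, r2, ?_⟩
  have e1 : (1 - τ) * (hS - hY) ≤ 2 * τ * hY := by
    have e4 : (1 - τ) * hS ≤ (1 - τ) * ((1 + τ) / 2 * (hX + hY)) :=
      mul_le_mul_of_nonneg_left f4 (by linarith)
    have e5 : (1 + τ) / 2 * ((1 - τ) * hX) ≤ (1 + τ) / 2 * ((1 + τ) * hY) :=
      mul_le_mul_of_nonneg_left g2 (by linarith)
    calc (1 - τ) * (hS - hY) = (1 - τ) * hS - (1 - τ) * hY := by ring
      _ ≤ (1 - τ) * ((1 + τ) / 2 * (hX + hY)) - (1 - τ) * hY := by linarith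
      _ = (1 + τ) / 2 * ((1 - τ) * hX) + (1 - τ) * ((1 + τ) / 2 * hY) - (1 - τ) * hY := by ring
      _ ≤ (1 + τ) / 2 * ((1 + τ) * hY) + (1 - τ) * ((1 + τ) / 2 * hY) - (1 - τ) * hY := by linarith
      _ = 2 * τ * hY := by ring
  have e2 : 0 ≤ hS - hY := by linarith
  have e3 : τ * hY ≤ τ * (5 / κ) := mul_le_mul_of_nonneg_left r2 hτ.le
  have e6 : τ * (hS - hY) ≤ 1 / 4 * (hS - hY) := mul_le_mul_of_nonneg_right hτ3 e2
  have e7 : 0 ≤ τ * (5 / κ) := by positivity
  linarith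

/-- **Atom lemma (P1).** -/
theorem atomLemma : AtomLemma := by
  classical
  intro κ σ hκ hκ1 hσ
  set L : ℝ := 5 / κ with hL
  have hL0 : 0 < L := by positivity
  set b : ℝ := Real.exp (-L) with hb
  have hb0 : 0 < b := Real.exp_pos _
  set M : ℕ := ⌈2 / b⌉₊ with hM
  have hM2 : 2 / b ≤ M := Nat.le_ceil _
  have hM0 : (0 : ℝ) < M := lt_of_lt_of_le (by positivity) hM2
  have hM1 : 1 ≤ M := by
    rw [Nat.one_le_iff_ne_zero]
    rintro h
    rw [h, Nat.cast_zero] at hM0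
    exact lt_irrefl _ hM0
  set θ : ℝ := min κ (Real.exp (-(L / σ))) with hθ
  have hθ0 : 0 < θ := lt_min hκ (Real.exp_pos _)
  set δ : ℝ := b / (2 * M) with hδ
  have hδ0 : 0 < δ := by positivity
  set τ : ℝ := min (κ / 4) (θ * δ ^ 2 / (8 * L)) with hτ
  have hτ0 : 0 < τ := lt_min (by positivity) (by positivity)
  have hτ1 : τ ≤ κ / 4 := min_le_left _ _
  have hτ2 : τ ≤ θ * δ ^ 2 / (8 * L) := min_le_right _ _
  refine ⟨τ, M, hτ0, by linarith, hM1, ?_⟩
  intro Ω Ω' G _ _ _ w w' X Y x₀ hw hw' hS hx₀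
  obtain ⟨g6, g5, g7⟩ := numeric hκ hκ1 hτ0 hτ1 hx₀ (Ent_nonneg hw X) (Ent_nonneg hw' Y)
    (Ent_sum_ge_left hw hw' X Y) (Ent_sum_ge_right hw hw' X Y) (step_a hw hw' X Y x₀) hS
  rw [← hL] at g5 g6 g7
  have g8 : 4 * τ * L < θ * δ ^ 2 := by
    have e1 : τ * (8 * L) ≤ θ * δ ^ 2 := by
      rwa [le_div_iff₀ (by positivity)] at hτ2
    have e2 : 0 < τ * L := mul_pos hτ0 hL0
    linarith
  -- the mode of `Y`
  obtain ⟨o', ho'⟩ := mode hw' Y
  have hy₀ : b ≤ pr w' Y (Y o') := by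
    refine le_trans ?_ ho'
    exact Real.exp_le_exp.2 (neg_le_neg g5)
  -- the values of mass at least `θ` are good
  refine le_trans (mass_mono hw ?_) (small_mass hw X g6 hL0 hσ (min_le_right κ _))
  intro o ho
  by_contra hlt
  rw [not_lt] at hlt
  obtain ⟨y, hy⟩ := step_b hw' Y (Y o') (X o - x₀) hb0 hy₀ hM2 ho
  have hne : x₀ ≠ X o := by
    rintro h
    apply ho
    exact ⟨1, le_rfl, hM1, by rw [← h, sub_self, nsmul_zero]⟩
  have hi := info_lower hw hw' X Y (y + X o) x₀ (X o) hne (θ := θ) ((min_le_left _ _).trans hx₀)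
    hlt hθ0.le
  have hz1 : y + X o - x₀ = y + (X o - x₀) := by abel
  have hz2 : y + X o - X o = y := by abel
  rw [hz1, hz2] at hi
  have hsq : δ ^ 2 ≤ (pr w' Y (y + (X o - x₀)) - pr w' Y y) ^ 2 := by
    have e1 : (pr w' Y (y + (X o - x₀)) - pr w' Y y) ^ 2 =
        (pr w' Y y - pr w' Y (y + (X o - x₀))) ^ 2 := by ring
    rw [e1]
    exact pow_le_pow_left₀ hδ0.le hy 2
  have hfin : θ * δ ^ 2 ≤ Ent (prodW w w') (fun p => X p.1 + Y p.2) - Ent w' Y :=
    le_trans (mul_le_mul_of_nonneg_left hsq hθ0.le) hi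
  linarith

end Pool.Agent.Helper57.FS
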